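import Pool.Agent.H25.FreeQ

namespace Pool.Agent.Results.MP_d3aff2_co.No
open Function Cardinal Quaternion

/-- Euclidean space. -/
abbrev E (n : ℕ) := EuclideanSpace ℝ (Fin n)

/-- Only the identity isometry preserves the colouring. -/
def Distinguishing {n k : ℕ} (c : E n → Fin k) : Prop :=
  ∀ g : E n ≃ᵢ E n, (∀ x, c (g x) = c x) → g = IsometryEquiv.refl (E n)

/-- The distinguishing number of the Euclidean group acting on `E n`. -/
noncomputable def D (n : ℕ) : ℕ := sInf {k | 1 ≤ k ∧ ∃ c : E n → Fin k, Distinguishing c}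

/-- Every `D n`-colouring becomes distinguishing after changing at most `m` points. -/
def Repairable (n m : ℕ) : Prop :=
  ∀ c : E n → Fin (D n), ∃ c' : E n → Fin (D n),
    {x | c' x ≠ c x}.Finite ∧ {x | c' x ≠ c x}.ncard ≤ m ∧ Distinguishing c'

theorem wild (Z : Type) [AddCommGroup Z] [Finite Z] : ∃ c : ℍ[ℝ] → Z, ∀ f : ℍ[ℝ] →₀ Z,
    ∃ u : ℍ[ℝ]ˣ, u ≠ 1 ∧ ‖(u : ℍ[ℝ])‖ = 1 ∧ ∀ x, c (u * x) + f (u * x) = c x + f x := by
  have hA : #(ℍ[ℝ] →₀ Z) ≤ 𝔠 := by
    rcases subsingleton_or_nontrivial Z with h | h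
    · exact (Cardinal.le_one_iff_subsingleton.2 inferInstance).trans
        (one_le_aleph0.trans aleph0_le_continuum)
    · haveI : Infinite ℍ[ℝ] := Infinite.of_injective _ Quaternion.coe_injective
      rw [Cardinal.mk_finsupp_of_infinite]
      refine max_le ?_ ((Cardinal.lt_aleph0_of_finite Z).le.trans aleph0_le_continuum)
      rw [Cardinal.mk_quaternion_of_infinite, Cardinal.mk_real]
  obtain ⟨π, hπ, hn⟩ := Pool.Agent.H25.FreeQ.exists_free _ hA
  let τ : (ℍ[ℝ] →₀ Z) → Equiv.Perm (ℍ[ℝ] × Z) := fun f =>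
    { toFun := fun p => (π (FreeGroup.of f) * p.1, p.2 + f p.1 - f (π (FreeGroup.of f) * p.1))
      invFun := fun p => (((π (FreeGroup.of f))⁻¹ : ℍ[ℝ]ˣ) * p.1,
        p.2 + f p.1 - f (((π (FreeGroup.of f))⁻¹ : ℍ[ℝ]ˣ) * p.1))
      left_inv := fun p => by
        simp only [Units.inv_mul_cancel_left]
        ext1 <;> simp
      right_inv := fun p => by
        simp only [Units.mul_inv_cancel_left]
        ext1 <;> simp }
  let σ : FreeGroup (ℍ[ℝ] →₀ Z) →* Equiv.Perm (ℍ[ℝ] × Z) := FreeGroup.lift τ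
  have fst : ∀ w p, (σ w p).1 = π w * p.1 := by
    intro w
    induction w using FreeGroup.induction_on with
    | C1 => intro p; simp
    | of a => intro p; simp only [σ, FreeGroup.lift_apply_of]; rfl
    | inv_of a _ => intro p; simp only [σ, map_inv, FreeGroup.lift_apply_of]; rfl
    | mul a b ha hb =>
      intro p
      rw [map_mul, map_mul, Equiv.Perm.mul_apply, ha, hb, Units.val_mul, mul_assoc]
  let s : Setoid ℍ[ℝ] :=
    { r := fun x y => ∃ w, y = π w * x
      iseqv := ⟨fun x => ⟨1, by simp⟩,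
        by
          rintro x _ ⟨w, rfl⟩
          exact ⟨w⁻¹, by rw [map_inv, Units.inv_mul_cancel_left]⟩,
        by
          rintro x _ _ ⟨w, rfl⟩ ⟨v, rfl⟩
          exact ⟨v * w, by rw [map_mul, Units.val_mul, mul_assoc]⟩⟩ }
  let r : ℍ[ℝ] → ℍ[ℝ] := fun x => (Quotient.mk s x).out
  have hr : ∀ x, ∃ w, x = π w * r x := fun x => Quotient.mk_out (s := s) x
  choose wd hwd using hr
  refine ⟨fun x => (σ (wd x) (r x, 0)).2, fun f => ⟨π (FreeGroup.of f),
    fun h => FreeGroup.of_ne_one f (hπ _ h), hn _, fun x => ?_⟩⟩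
  by_cases hx : x = 0
  · rw [hx, mul_zero]
  have r1 : r (π (FreeGroup.of f) * x) = r x := by
    have : Quotient.mk s x = Quotient.mk s (π (FreeGroup.of f) * x) := Quotient.sound ⟨_, rfl⟩
    simp only [r, this]
  have r0 : r x ≠ 0 := fun h => hx (by rw [hwd x, h, mul_zero])
  have w1 : wd (π (FreeGroup.of f) * x) = FreeGroup.of f * wd x := by
    have e1 := hwd (π (FreeGroup.of f) * x)
    rw [r1] at e1
    have e2 : (π (FreeGroup.of f * wd x) : ℍ[ℝ]) * r x = π (FreeGroup.of f) * x := by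
      rw [map_mul, Units.val_mul, mul_assoc, ← hwd x]
    have e3 := Units.ext (mul_right_cancel₀ r0 (e2.trans e1))
    have := hπ ((FreeGroup.of f * wd x)⁻¹ * wd (π (FreeGroup.of f) * x)) (by
      rw [map_mul, map_inv, e3, inv_mul_cancel])
    exact (inv_mul_eq_one.1 this).symm
  have e4 : (σ (wd x) (r x, 0)).1 = x := by rw [fst, ← hwd x]
  have e5 : ∀ p, (σ (FreeGroup.of f) p).2 = p.2 + f p.1 - f (π (FreeGroup.of f) * p.1) := by
    intro p
    simp only [σ, FreeGroup.lift_apply_of]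
    rfl
  show (σ (wd (π (FreeGroup.of f) * x)) (r (π (FreeGroup.of f) * x), 0)).2 + _ = _
  rw [w1, r1, map_mul, Equiv.Perm.mul_apply, e5, e4, sub_add_cancel]

theorem D_pos (n : ℕ) : 1 ≤ D n := by
  classical
  let p : Option (Fin n) → E n := fun o => o.elim 0 fun i => EuclideanSpace.basisFun (Fin n) ℝ i
  let e := Fintype.equivFin (Option (Fin n) → Bool)
  have : {k | 1 ≤ k ∧ ∃ c : E n → Fin k, Distinguishing c}.Nonempty := by
    refine ⟨Fintype.card (Option (Fin n) → Bool), Fintype.card_pos,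
      fun x => e fun o => decide (x = p o), fun g hg => ?_⟩
    have fix : ∀ o, g (p o) = p o := fun o => by
      have := congrFun (e.injective (hg (p o))) o
      simpa using this
    have h0 : g 0 = 0 := fix none
    have : (g.toRealLinearIsometryEquivOfMapZero h0).toLinearEquiv.toLinearMap = LinearMap.id :=
      (EuclideanSpace.basisFun (Fin n) ℝ).toBasis.ext fun i => fix (some i)
    ext1 x
    exact LinearMap.congr_fun this x
  exact (Nat.sInf_mem this).1

theorem strong (k : ℕ) (hk : 1 ≤ k) : ∃ c : E 4 → Fin k, ∀ c' : E 4 → Fin k,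
    {x | c' x ≠ c x}.Finite → ¬ Distinguishing c' := by
  haveI : NeZero k := ⟨by omega⟩
  obtain ⟨c, hc⟩ := wild (Fin k)
  let φ := Quaternion.linearIsometryEquivTuple
  refine ⟨fun x => c (φ.symm x), fun c' hfin hd => ?_⟩
  have hf : (Function.support fun q : ℍ[ℝ] => c' (φ q) - c q).Finite := by
    refine (hfin.preimage φ.injective.injOn).subset fun q hq => ?_
    simpa [sub_eq_zero] using hq
  obtain ⟨u, u1, u2, u3⟩ := hc (Finsupp.ofSupportFinite _ hf)
  simp only [Finsupp.ofSupportFinite_coe, add_sub_cancel] at u3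
  let g0 : ℍ[ℝ] ≃ᵢ ℍ[ℝ] :=
    { toEquiv := Units.mulLeft u
      isometry_toFun := Isometry.of_dist_eq fun a b => by
        change dist ((u : ℍ[ℝ]) * a) ((u : ℍ[ℝ]) * b) = dist a b
        rw [dist_eq_norm, dist_eq_norm, ← mul_sub, norm_mul, u2, one_mul] }
  have := hd ((φ.symm.toIsometryEquiv.trans g0).trans φ.toIsometryEquiv) fun x => by
    have := u3 (φ.symm x)
    rw [φ.apply_symm_apply] at this
    exact this
  have h1 : φ ((u : ℍ[ℝ]) * φ.symm (φ 1)) = φ 1 :=
    congrArg (fun g : E 4 ≃ᵢ E 4 => g (φ 1)) this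
  rw [φ.symm_apply_apply, mul_one] at h1
  exact u1 (Units.ext (φ.injective h1))

/-- The replacement number of `E 4` is infinite: some colouring stays non-distinguishing after
any finite change.  Hence the replacement number is not finite for every `n ≥ 1`. -/
theorem result : (∃ c : E 4 → Fin (D 4), ∀ c' : E 4 → Fin (D 4),
      {x | c' x ≠ c x}.Finite → ¬ Distinguishing c') ∧
    ¬ ∀ n, 1 ≤ n → ∃ m, Repairable n m := by
  obtain ⟨c, hc⟩ := strong (D 4) (D_pos 4)
  refine ⟨⟨c, hc⟩, fun h => ?_⟩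
  obtain ⟨m, hm⟩ := h 4 (by norm_num)
  obtain ⟨c', h1, -, h2⟩ := hm c
  exact hc c' h1 h2

end Pool.Agent.Results.MP_d3aff2_co.No
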